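import Pool.Agent.K7.H22.EV.Stm

set_option autoImplicit false

/-!
# Basic facts on codes of strength `t` and index one
-/

open Finset

namespace Pool.Agent.K7.H22.EV

variable {ι S W : Type} [Fintype ι] [Fintype S] [Fintype W] {t : ℕ} {f : W → ι → S}

theorem mem_ag {u w : W} {i : ι} : i ∈ ag f u w ↔ f u i = f w i := by
  classical
  simp [ag]

theorem ag_comm (f : W → ι → S) (u w : W) : ag f u w = ag f w u := by
  ext i
  rw [mem_ag, mem_ag]
  exact eq_comm

theorem ag_self (f : W → ι → S) (u : W) : ag f u u = univ := by
  ext i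
  simp [mem_ag]

/-- two words that agree on a set of at least `t` positions are equal -/
theorem eq_of_agree (h : T t f) {u w : W} (A : Finset ι) (hA : t ≤ A.card)
    (hagree : ∀ i ∈ A, f u i = f w i) : u = w := by
  obtain ⟨B, hB, hBc⟩ := exists_subset_card_eq hA
  obtain ⟨x, -, hx⟩ := h B hBc (f w)
  rw [hx u (fun i hi => hagree i (hB hi)), hx w (fun i _ => rfl)]

theorem card_ag_lt (h : T t f) {u w : W} (huw : u ≠ w) : (ag f u w).card < t := by
  by_contra hcon
  push Not at hcon
  exact huw (eq_of_agree h _ hcon fun i hi => mem_ag.1 hi)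

open Classical in
/-- the words with the symbols `v` at the positions of `B` -/
noncomputable def thr (f : W → ι → S) (B : Finset ι) (v : ι → S) : Finset W :=
  univ.filter fun w => ∀ i ∈ B, f w i = v i

theorem mem_thr {B : Finset ι} {v : ι → S} {w : W} : w ∈ thr f B v ↔ ∀ i ∈ B, f w i = v i := by
  classical
  simp [thr]

/-- `n ^ (t - b)` words through `b ≤ t` points -/
theorem card_thr (h : T t f) (ht : t ≤ Fintype.card ι) (B : Finset ι) (hB : B.card ≤ t)
    (v : ι → S) : (thr f B v).card = Fintype.card S ^ (t - B.card) := by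
  classical
  obtain ⟨A, hBA, hA⟩ := exists_superset_card_eq hB ht
  -- words through `B` correspond to functions `A \ B → S`
  have hc : (A \ B).card = t - B.card := by
    rw [card_sdiff_of_subset hBA, hA]
  have e : (thr f B v).card = Fintype.card ({i // i ∈ A \ B} → S) := by
    rw [← Fintype.card_coe]
    refine Fintype.card_congr (Equiv.ofBijective
      (fun (w : {w // w ∈ thr f B v}) (i : {i // i ∈ A \ B}) => f w.1 i.1) ⟨?_, ?_⟩)
    · rintro ⟨w, hw⟩ ⟨w', hw'⟩ hww
      rw [mem_thr] at hw hw'
      refine Subtype.ext (eq_of_agree h A hA.ge fun i hi => ?_)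
      by_cases hiB : i ∈ B
      · rw [hw i hiB, hw' i hiB]
      · exact congrFun hww ⟨i, mem_sdiff.2 ⟨hi, hiB⟩⟩
    · intro g
      obtain ⟨w, hw, -⟩ := h A hA (fun i => if hi : i ∈ A \ B then g ⟨i, hi⟩ else v i)
      refine ⟨⟨w, mem_thr.2 fun i hi => ?_⟩, ?_⟩
      · rw [hw i (hBA hi), dif_neg]
        simp [hi]
      · funext i
        have := hw i.1 (mem_sdiff.1 i.2).1
        rw [dif_pos i.2] at this
        exact this
  rw [e, Fintype.card_fun, Fintype.card_coe, hc]

/-- `n` words through `t - 1` points -/
theorem card_thr_one (h : T t f) (ht : t ≤ Fintype.card ι) (B : Finset ι) (hB : B.card + 1 = t)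
    (v : ι → S) : (thr f B v).card = Fintype.card S := by
  rw [card_thr h ht B (by omega) v, show t - B.card = 1 by omega, pow_one]

/-- through `t - 2` points of a word `v` and another point `(i, b)` not on `v` there is exactly one
word that agrees with `v` nowhere else, if there are `n + t - 2` positions -/
theorem exists_unique_touch (h : T t f) (B : Finset ι) (hB : B.card + 2 = t)
    (hι : Fintype.card ι = Fintype.card S + B.card) (v : W) {i : ι} (hi : i ∉ B) {b : S}
    (hb : b ≠ f v i) : ∃! x, f x i = b ∧ ag f x v = B := by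
  classical
  have hS : 2 ≤ Fintype.card S := by
    have : Nontrivial S := ⟨⟨b, _, hb⟩⟩
    exact Fintype.one_lt_card
  set c : ι → S := fun j => if j = i then b else f v j with hc
  have hci : c i = b := by simp [hc]
  have hcj : ∀ j, j ≠ i → c j = f v j := fun j hj => by simp [hc, hj]
  have hX : (thr f (insert i B) c).card = Fintype.card S :=
    card_thr_one h (by omega) _ (by rw [card_insert_of_notMem hi]; omega) c
  -- the words that meet `v` once more
  have hex : ∀ j, j ∉ insert i B → ∃! x, ∀ l ∈ insert j (insert i B), f x l = c l := by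
    intro j hj
    exact h _ (by rw [card_insert_of_notMem hj, card_insert_of_notMem hi]; omega) c
  have hex' : ∀ j, ∃ x, j ∉ insert i B → ∀ l ∈ insert j (insert i B), f x l = c l := by
    intro j
    by_cases hj : j ∈ insert i B
    · exact ⟨v, fun h' => absurd hj h'⟩
    · obtain ⟨x, hx, -⟩ := hex j hj
      exact ⟨x, fun _ => hx⟩
  choose y hy using hex'
  set J : Finset ι := univ \ insert i B with hJ
  have hJc : J.card + 1 = Fintype.card S := by
    rw [hJ, card_sdiff_of_subset (subset_univ _), card_univ, card_insert_of_notMem hi, hι]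
    omega
  have hJm : ∀ j, j ∈ J ↔ j ∉ insert i B := by intro j; simp [hJ]
  have hinj : Set.InjOn y (J : Set ι) := by
    intro j hj k hk hjk
    by_contra hne
    have h1 := hy j ((hJm j).1 (mem_coe.1 hj))
    have h2 := hy k ((hJm k).1 (mem_coe.1 hk))
    have hj' := (hJm j).1 (mem_coe.1 hj)
    have hk' := (hJm k).1 (mem_coe.1 hk)
    have hji : j ≠ i := fun h' => hj' (h' ▸ mem_insert_self _ _)
    have hki : k ≠ i := fun h' => hk' (h' ▸ mem_insert_self _ _)
    have hjB : j ∉ B := fun h' => hj' (mem_insert_of_mem h')
    have hkB : k ∉ B := fun h' => hk' (mem_insert_of_mem h')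
    have : y j = v := by
      refine eq_of_agree h (insert j (insert k B)) ?_ ?_
      · rw [card_insert_of_notMem, card_insert_of_notMem hkB]
        · omega
        · simp [hne, hjB]
      · intro l hl
        rcases mem_insert.1 hl with rfl | hl
        · rw [h1 _ (mem_insert_self _ _), hcj _ hji]
        rcases mem_insert.1 hl with rfl | hl
        · rw [hjk, h2 _ (mem_insert_self _ _), hcj _ hki]
        · rw [h1 l (mem_insert_of_mem (mem_insert_of_mem hl)), hcj l (fun h' => hi (h' ▸ hl))]
    have h3 := h1 i (mem_insert_of_mem (mem_insert_self _ _))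
    rw [this, hci] at h3
    exact hb h3.symm
  have hYX : J.image y ⊆ thr f (insert i B) c := by
    intro x hx
    obtain ⟨j, hj, rfl⟩ := mem_image.1 hx
    rw [mem_thr]
    intro l hl
    exact hy j ((hJm j).1 hj) l (mem_insert_of_mem hl)
  have hYc : (J.image y).card + 1 = Fintype.card S := by
    rw [card_image_of_injOn hinj, hJc]
  have hdiff : (thr f (insert i B) c \ J.image y).card = 1 := by
    rw [card_sdiff_of_subset hYX, hX]
    omega
  -- a word of the difference is as wanted and conversely
  have key : ∀ x, x ∈ thr f (insert i B) c \ J.image y ↔ f x i = b ∧ ag f x v = B := by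
    intro x
    rw [mem_sdiff, mem_thr]
    constructor
    · rintro ⟨hx, hxY⟩
      refine ⟨by rw [hx i (mem_insert_self _ _), hci], ?_⟩
      ext l
      rw [mem_ag]
      constructor
      · intro hl
        by_contra hlB
        have hli : l ≠ i := by
          rintro rfl
          rw [hx l (mem_insert_self _ _), hci] at hl
          exact hb hl
        have hlJ : l ∉ insert i B := by simp [hli, hlB]
        apply hxY
        refine mem_image.2 ⟨l, (hJm l).2 hlJ, ?_⟩
        obtain ⟨z, -, hz⟩ := hex l hlJ
        rw [hz _ (hy l hlJ), hz x]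
        intro k hk
        rcases mem_insert.1 hk with rfl | hk
        · rw [hl, hcj _ hli]
        · exact hx k hk
      · intro hl
        rw [hx l (mem_insert_of_mem hl), hcj l (fun h' => hi (h' ▸ hl))]
    · rintro ⟨hx, hxB⟩
      refine ⟨?_, ?_⟩
      · intro l hl
        rcases mem_insert.1 hl with rfl | hl
        · rw [hx, hci]
        · rw [hcj l (fun h' => hi (h' ▸ hl))]
          exact mem_ag.1 (hxB ▸ hl)
      · intro hxY
        obtain ⟨j, hj, rfl⟩ := mem_image.1 hxY
        have hj' := (hJm j).1 hj
        have hji : j ≠ i := fun h' => hj' (h' ▸ mem_insert_self _ _)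
        have h1 := hy j hj' j (mem_insert_self _ _)
        rw [hcj _ hji] at h1
        have h2 : j ∈ ag f (y j) v := mem_ag.2 h1
        rw [hxB] at h2
        exact hj' (mem_insert_of_mem h2)
  obtain ⟨x, hx⟩ := card_eq_one.1 hdiff
  refine ⟨x, (key x).1 (hx ▸ mem_singleton_self x), fun z hz => ?_⟩
  have := (key z).2 hz
  rw [hx] at this
  exact mem_singleton.1 this

end Pool.Agent.K7.H22.EV
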