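import Mathlib

set_option autoImplicit false

/-!
# Orthogonal arrays of index one and strength four with an even number `n` of symbols and `n + 2`
columns: statements of the jobs

A code is a family `f : W → ι → S` of words (`ι` the positions, `S` the symbols, `|S| = n`).
`T t f`: for any `t` positions and any symbols there is exactly one word with these symbols.
-/

open Finset

namespace Pool.Agent.K7.H22.EV

variable {ι S W : Type} [Fintype ι] [Fintype S] [Fintype W]

/-- strength `t`, index one -/
def T (t : ℕ) (f : W → ι → S) : Prop :=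
  ∀ A : Finset ι, A.card = t → ∀ v : ι → S, ∃! w, ∀ i ∈ A, f w i = v i

open Classical in
/-- positions where two words agree -/
noncomputable def ag (f : W → ι → S) (u w : W) : Finset ι := univ.filter fun i => f u i = f w i

/-- JOB L2: `n` positions, strength two: being disjoint is transitive -/
def StL2 : Prop := ∀ (ι S W : Type) [Fintype ι] [Fintype S] [Fintype W] (f : W → ι → S), T 2 f →
  Fintype.card ι = Fintype.card S → 2 ≤ Fintype.card S → ∀ u v w : W, u ≠ w →
    (ag f u v).card = 0 → (ag f v w).card = 0 → (ag f u w).card = 0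

/-- JOB L3: `n + 1` positions, strength three, `n` even: agreeing exactly once is transitive -/
def StL3 : Prop := ∀ (ι S W : Type) [Fintype ι] [Fintype S] [Fintype W] (f : W → ι → S), T 3 f →
  Fintype.card ι = Fintype.card S + 1 → 2 ≤ Fintype.card S → Even (Fintype.card S) →
  ∀ u v w : W, u ≠ w → (ag f u v).card = 1 → (ag f v w).card = 1 → (ag f u w).card = 1

/-- JOB L4: `n + 2` positions, strength four, `n` even: the code can be extended -/
def StL4 : Prop := ∀ (ι S W : Type) [Fintype ι] [Fintype S] [Fintype W] (f : W → ι → S), T 4 f →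
  Fintype.card ι = Fintype.card S + 2 → 2 ≤ Fintype.card S → Even (Fintype.card S) →
  6 ∣ Fintype.card S * (Fintype.card S + 1) ∧
    ∃ e : W → S, T 4 (fun w (o : Option ι) => o.elim (e w) (f w))

/-- JOB M1: `n + 3` positions, strength four: two words never agree exactly twice -/
def StM1 : Prop := ∀ (ι S W : Type) [Fintype ι] [Fintype S] [Fintype W] (f : W → ι → S), T 4 f →
  Fintype.card ι = Fintype.card S + 3 → 2 ≤ Fintype.card S → ∀ u w : W, u ≠ w →
    (ag f u w).card ≠ 2

/-- JOB M2: the double count. Let `u ≠ w` agree in `a` positions and `p = n + 3 - a`. Count the words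
`x` and the ordered `i₁ ≠ i₂`, `j₁ ≠ j₂` outside of `ag u w` with `x = u` at `i₁, i₂` and `x = w` at
`j₁, j₂`: `p (p-1) (p-2) (p-3) = 36 N₀ + 4 N₁`, where `N₁` counts the `x` that contain a common
point of `u`, `w`; similarly `a p (p-1) (p-2) = 4 N₁`. -/
def StM2 : Prop := ∀ (ι S W : Type) [Fintype ι] [Fintype S] [Fintype W] (f : W → ι → S), T 4 f →
  Fintype.card ι = Fintype.card S + 3 → 2 ≤ Fintype.card S → ∀ u w : W, u ≠ w → ∀ p : ℤ,
    p + (ag f u w).card = Fintype.card S + 3 →
    (36 : ℤ) ∣ p * (p - 1) * (p - 2) * (p - 3 - (ag f u w).card)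

/-- JOB M3: pairs of words agreeing in `0`, `1`, `3` positions exist -/
def StM3 : Prop := ∀ (ι S W : Type) [Fintype ι] [Fintype S] [Fintype W] (f : W → ι → S), T 4 f →
  Fintype.card ι = Fintype.card S + 3 → 3 ≤ Fintype.card S →
    (∃ u w : W, u ≠ w ∧ (ag f u w).card = 0) ∧ (∃ u w : W, u ≠ w ∧ (ag f u w).card = 1) ∧
    (∃ u w : W, u ≠ w ∧ (ag f u w).card = 3)

/-- JOB M4: `4 ∣ n (n + 1)`: for `u`, `w` with `ag u w = {P}` and a point `P'` at another position,
not on `u`, `w`, count the words `x` through `P`, `P'` meeting both `u` and `w` again, by pairs of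
positions. -/
def StM4 : Prop := ∀ (ι S W : Type) [Fintype ι] [Fintype S] [Fintype W] (f : W → ι → S), T 4 f →
  Fintype.card ι = Fintype.card S + 3 → 3 ≤ Fintype.card S →
    4 ∣ Fintype.card S * (Fintype.card S + 1)

/-- JOB END: the divisibility theorem -/
def StEnd : Prop := ∀ (ι S W : Type) [Fintype ι] [Fintype S] [Fintype W] (f : W → ι → S), T 4 f →
  Fintype.card ι = Fintype.card S + 2 → 3 ≤ Fintype.card S → Even (Fintype.card S) →
  36 ∣ Fintype.card S

end Pool.Agent.K7.H22.EV
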